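import Pool.Agent.Helper76.TB.Goals
import Pool.Agent.Helper90.TwinJ
import Pool.Agent.Helper90.TwinR
import Pool.Agent.Helper90.TwinI

/-!
Project TB (MP_74f661_nt), packet TB-U-SIZE: choice of the parameters.
-/

set_option autoImplicit false

open Finset Filter Topology

namespace Pool.Agent.Helper54.TB

open Pool.Agent.Helper76.TB
open Pool.Agent.Helper90.Twin (Ps Gz Sz errB)

theorem exp_two_le : Real.exp 2 ≤ 8 := by
  have h1 := Real.exp_one_lt_d9
  have h2 : Real.exp 2 = Real.exp 1 * Real.exp 1 := by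
    rw [← Real.exp_add]
    norm_num
  have h3 := Real.exp_pos 1
  rw [h2]
  nlinarith

theorem le_exp_three : (16 : ℝ) ≤ Real.exp 3 := by
  have h1 := Real.exp_one_gt_d9
  have h2 : Real.exp 3 = Real.exp 1 * Real.exp 1 * Real.exp 1 := by
    rw [← Real.exp_add, ← Real.exp_add]
    norm_num
  rw [h2]
  have h3 : (2.7 : ℝ) ≤ Real.exp 1 := by linarith
  have h4 : (2.7 : ℝ) * 2.7 ≤ Real.exp 1 * Real.exp 1 := by nlinarith
  nlinarith

theorem pow_div_fac {a : ℝ} (ha : 0 ≤ a) {k : ℕ} (h : Real.exp 2 * a ≤ k) :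
    a ^ k / (k.factorial : ℝ) ≤ Real.exp (-k) := by
  have h1 := Real.pow_div_factorial_le_exp (Real.exp 2 * a) (by positivity) k
  have h2 := Real.exp_le_exp.2 h
  have h3 : (Real.exp 2 * a) ^ k / (k.factorial : ℝ) =
      Real.exp (2 * k) * (a ^ k / (k.factorial : ℝ)) := by
    rw [mul_pow, ← Real.exp_nat_mul, mul_comm (k : ℝ) 2]
    ring
  rw [h3] at h1
  have h4 : Real.exp (2 * k) * (a ^ k / (k.factorial : ℝ)) ≤ Real.exp k := h1.trans h2
  have h5 : Real.exp (-k) = Real.exp k / Real.exp (2 * k) := by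
    rw [← Real.exp_sub]
    congr 1
    ring
  rw [h5, le_div_iff₀ (Real.exp_pos _)]
  linarith

theorem size (h1 : HBG) : SIZEG := by
  intro C0 hC0
  obtain ⟨C1, hC1⟩ : ∃ C1 : ℝ, C1 = 101 * C0 * Real.exp 2 + 30 := ⟨_, rfl⟩
  obtain ⟨C2, hC2⟩ : ∃ C2 : ℝ, C2 = 200 * (C1 + 4) := ⟨_, rfl⟩
  have he2 := Real.exp_pos 2
  have hC1' : 30 ≤ C1 := by
    have : 0 ≤ 101 * C0 * Real.exp 2 := by positivity
    linarith
  have hC1'' : 101 * C0 * Real.exp 2 ≤ C1 := by linarith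
  have hC20 : 0 ≤ C2 := by rw [hC2]; linarith
  refine ⟨17 * (C1 + 2) + (C2 + 1) * (2 * C1 + 9) + 9, ?_, ?_⟩
  · have : 0 ≤ (C2 + 1) * (2 * C1 + 9) := by
      apply mul_nonneg <;> linarith
    linarith
  filter_upwards [h1 (2 * (C1 + 2))] with Z hZ
  obtain ⟨hL1, hM, hH, hHG, hS, hZ3⟩ := hZ
  intro r hr N hN
  have hΛ : Real.log Z = Real.exp (l2 Z) := by
    rw [l2, Real.exp_log]
    rcases (Real.log_natCast_nonneg Z).lt_or_eq with h | h
    · exact h
    · exfalso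
      rw [l2, ← h, Real.log_zero] at hL1
      linarith
  generalize hLd : l2 Z = L at *
  rw [hΛ] at hH ⊢
  have hL0 : 0 < L := by linarith
  have hLsq : L ≤ L ^ 2 := by nlinarith
  have hLsq1 : 1 ≤ L ^ 2 := by nlinarith
  -- the parameters
  obtain ⟨R, hRd⟩ : ∃ R : ℕ, R = ⌈C1 * L⌉₊ := ⟨_, rfl⟩
  obtain ⟨m, hmd⟩ : ∃ m : ℕ, m = ⌈C2 * L ^ 2⌉₊ := ⟨_, rfl⟩
  have hR1 : C1 * L ≤ R := by rw [hRd]; exact Nat.le_ceil _
  have hR2 : (R : ℝ) ≤ C1 * L + 1 := by
    rw [hRd]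
    exact (Nat.ceil_lt_add_one (by positivity)).le
  have hm1 : C2 * L ^ 2 ≤ m := by rw [hmd]; exact Nat.le_ceil _
  have hm2 : (m : ℝ) ≤ C2 * L ^ 2 + 1 := by
    rw [hmd]
    exact (Nat.ceil_lt_add_one (by positivity)).le
  have hC1L : 30 * L ≤ C1 * L := mul_le_mul_of_nonneg_right hC1' hL0.le
  have hk : (R : ℝ) + 1 ≤ (C1 + 2) * L := by nlinarith
  have hk2 : (R : ℝ) + 2 ≤ (C1 + 3) * L := by nlinarith
  have hk3 : (R : ℝ) + 3 ≤ (C1 + 4) * L := by nlinarith
  have hH1 : (1 : ℝ) ≤ HH Z := by nlinarith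
  -- N
  have hlr : 0 ≤ Real.log ((r : ℝ) + 2) := Real.log_nonneg (by
    have : (0 : ℝ) ≤ r := Nat.cast_nonneg r
    linarith)
  obtain ⟨W, hW⟩ : ∃ W : ℝ, W = L ^ 2 * (Real.log ((r : ℝ) + 2) + L) := ⟨_, rfl⟩
  have hWL : L ^ 2 ≤ W := by
    rw [hW]
    nlinarith
  have hWL2 : L ≤ W := hLsq.trans hWL
  have hW1 : 1 ≤ W := hLsq1.trans hWL
  have hN' : (17 * (C1 + 2) + (C2 + 1) * (2 * C1 + 9) + 9) * W ≤ Real.log N := by
    rw [hW]
    linarith
  have hNpos : (0 : ℝ) < N := by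
    rcases Nat.eq_zero_or_pos N with h | h
    · exfalso
      rw [h, Nat.cast_zero, Real.log_zero] at hN'
      have : 0 < (17 * (C1 + 2) + (C2 + 1) * (2 * C1 + 9) + 9) * W := by positivity
      linarith
    · exact_mod_cast h
  have hN6 : (N : ℝ) / Real.exp L ^ 6 = N * Real.exp (-(6 * L)) := by
    rw [← Real.exp_nat_mul, Real.exp_neg, div_eq_mul_inv]
    norm_num
  rw [hN6]
  -- k * H ^ k
  have hkH : ((R : ℝ) + 1) * (HH Z : ℝ) ^ (R + 1) ≤ Real.exp (17 * (C1 + 2) * L ^ 2) := by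
    have g1 : (R : ℝ) + 1 ≤ Real.exp ((C1 + 2) * L ^ 2) := by
      have g2 := Real.add_one_le_exp (R : ℝ)
      refine g2.trans (Real.exp_le_exp.2 ?_)
      have g3 : (C1 + 2) * L ≤ (C1 + 2) * L ^ 2 := mul_le_mul_of_nonneg_left hLsq (by linarith)
      linarith
    have g2 : (HH Z : ℝ) ^ (R + 1) ≤ Real.exp (16 * (C1 + 2) * L ^ 2) := by
      calc (HH Z : ℝ) ^ (R + 1) ≤ (Real.exp L ^ 16) ^ (R + 1) :=
            pow_le_pow_left₀ (by linarith) hH _
        _ = Real.exp (((R : ℝ) + 1) * (16 * L)) := by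
            rw [← Real.exp_nat_mul, ← Real.exp_nat_mul]
            push_cast
            rfl
        _ ≤ _ := by
            apply Real.exp_le_exp.2
            have g3 : ((R : ℝ) + 1) * (16 * L) ≤ ((C1 + 2) * L) * (16 * L) :=
              mul_le_mul_of_nonneg_right hk (by linarith)
            linarith
    calc ((R : ℝ) + 1) * (HH Z : ℝ) ^ (R + 1)
        ≤ Real.exp ((C1 + 2) * L ^ 2) * Real.exp (16 * (C1 + 2) * L ^ 2) :=
          mul_le_mul g1 g2 (by positivity) (Real.exp_pos _).le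
      _ = _ := by
          rw [← Real.exp_add]
          congr 1
          ring
  -- A
  have hSr0 : 0 ≤ ∑ p ∈ Ps r, 1 / (p : ℝ) := Finset.sum_nonneg fun p _ => by positivity
  have hSr : ∑ p ∈ Ps r, 1 / (p : ℝ) ≤ 6 * L :=
    (Pool.Agent.Helper90.Twin.Sz_mono hr).trans hS
  have hA : (2 * ((R : ℝ) + 2) * ∑ p ∈ Ps r, 1 / (p : ℝ)) ^ m / (m.factorial : ℝ) ≤
      Real.exp (-(C2 * L ^ 2)) := by
    have g1 := pow_div_fac (a := 2 * ((R : ℝ) + 2) * ∑ p ∈ Ps r, 1 / (p : ℝ)) (by positivity)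
      (k := m) (by
        have g2 : 2 * ((R : ℝ) + 2) * ∑ p ∈ Ps r, 1 / (p : ℝ) ≤ 2 * ((C1 + 3) * L) * (6 * L) := by
          gcongr
        have g3 : 0 ≤ 2 * ((R : ℝ) + 2) * ∑ p ∈ Ps r, 1 / (p : ℝ) := by positivity
        have g4 : Real.exp 2 * (2 * ((R : ℝ) + 2) * ∑ p ∈ Ps r, 1 / (p : ℝ)) ≤
            8 * (2 * ((C1 + 3) * L) * (6 * L)) := by
          apply mul_le_mul exp_two_le g2 g3 (by norm_num)
        refine g4.trans (le_trans ?_ hm1)
        rw [hC2]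
        nlinarith)
    refine g1.trans (Real.exp_le_exp.2 ?_)
    linarith
  -- B
  have hB : (1 + 2 * ((R : ℝ) + 2) * ((Ps r).card : ℝ)) ^ m ≤
      Real.exp ((C2 + 1) * (2 * C1 + 9) * W) := by
    have g0 : ((Ps r).card : ℝ) ≤ r := Pool.Agent.Helper90.Twin.card_Ps_le r
    have hr0 : (0 : ℝ) ≤ r := Nat.cast_nonneg r
    have hR0 : (0 : ℝ) ≤ R := Nat.cast_nonneg R
    have g1 : 1 + 2 * ((R : ℝ) + 2) * ((Ps r).card : ℝ) ≤ 2 * ((R : ℝ) + 3) * ((r : ℝ) + 2) := by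
      have : 2 * ((R : ℝ) + 2) * ((Ps r).card : ℝ) ≤ 2 * ((R : ℝ) + 2) * r := by gcongr
      nlinarith
    have g2 : 2 * ((R : ℝ) + 3) ≤ Real.exp ((2 * C1 + 9) * L) := by
      have g3 : 2 * ((R : ℝ) + 3) ≤ (2 * C1 + 8) * L := by linarith
      have g4 := Real.add_one_le_exp ((2 * C1 + 9) * L)
      linarith
    have g3 : (r : ℝ) + 2 = Real.exp (Real.log ((r : ℝ) + 2)) := by
      rw [Real.exp_log (by linarith)]
    have g4 : 1 + 2 * ((R : ℝ) + 2) * ((Ps r).card : ℝ) ≤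
        Real.exp ((2 * C1 + 9) * (Real.log ((r : ℝ) + 2) + L)) := by
      calc 1 + 2 * ((R : ℝ) + 2) * ((Ps r).card : ℝ)
          ≤ 2 * ((R : ℝ) + 3) * ((r : ℝ) + 2) := g1
        _ ≤ Real.exp ((2 * C1 + 9) * L) * ((r : ℝ) + 2) :=
            mul_le_mul_of_nonneg_right g2 (by linarith)
        _ = Real.exp ((2 * C1 + 9) * L + Real.log ((r : ℝ) + 2)) := by
            rw [Real.exp_add, ← g3]
        _ ≤ _ := by
            apply Real.exp_le_exp.2
            have : Real.log ((r : ℝ) + 2) ≤ (2 * C1 + 9) * Real.log ((r : ℝ) + 2) := by nlinarith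
            linarith
    calc (1 + 2 * ((R : ℝ) + 2) * ((Ps r).card : ℝ)) ^ m
        ≤ (Real.exp ((2 * C1 + 9) * (Real.log ((r : ℝ) + 2) + L))) ^ m :=
          pow_le_pow_left₀ (add_nonneg zero_le_one (mul_nonneg (by linarith)
            (Nat.cast_nonneg _))) g4 _
      _ = Real.exp (m * ((2 * C1 + 9) * (Real.log ((r : ℝ) + 2) + L))) := by
          rw [← Real.exp_nat_mul]
      _ ≤ _ := by
          apply Real.exp_le_exp.2
          have g5 : (m : ℝ) ≤ (C2 + 1) * L ^ 2 := by linarith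
          have g6 : 0 ≤ (2 * C1 + 9) * (Real.log ((r : ℝ) + 2) + L) := by positivity
          calc (m : ℝ) * ((2 * C1 + 9) * (Real.log ((r : ℝ) + 2) + L))
              ≤ ((C2 + 1) * L ^ 2) * ((2 * C1 + 9) * (Real.log ((r : ℝ) + 2) + L)) :=
                mul_le_mul_of_nonneg_right g5 g6
            _ = _ := by rw [hW]; ring
  have he3 := le_exp_three
  -- the first two parts
  have hP1 : Real.exp (17 * (C1 + 2) * L ^ 2) * (2 * N * Real.exp (-(C2 * L ^ 2))) ≤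
      N * Real.exp (-(6 * L)) / 8 := by
    have g1 : 16 * (Real.exp (17 * (C1 + 2) * L ^ 2) * Real.exp (-(C2 * L ^ 2))) ≤
        Real.exp (-(6 * L)) := by
      calc 16 * (Real.exp (17 * (C1 + 2) * L ^ 2) * Real.exp (-(C2 * L ^ 2)))
          ≤ Real.exp 3 * (Real.exp (17 * (C1 + 2) * L ^ 2) * Real.exp (-(C2 * L ^ 2))) :=
            mul_le_mul_of_nonneg_right he3 (by positivity)
        _ = Real.exp (3 + (17 * (C1 + 2) * L ^ 2 + -(C2 * L ^ 2))) := by
            rw [Real.exp_add, Real.exp_add]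
        _ ≤ _ := by
            apply Real.exp_le_exp.2
            rw [hC2]
            nlinarith
    calc Real.exp (17 * (C1 + 2) * L ^ 2) * (2 * N * Real.exp (-(C2 * L ^ 2)))
        = (N / 8) * (16 * (Real.exp (17 * (C1 + 2) * L ^ 2) * Real.exp (-(C2 * L ^ 2)))) := by ring
      _ ≤ (N / 8) * Real.exp (-(6 * L)) := mul_le_mul_of_nonneg_left g1 (by positivity)
      _ = _ := by ring
  have hP2 : Real.exp (17 * (C1 + 2) * L ^ 2) * Real.exp ((C2 + 1) * (2 * C1 + 9) * W) ≤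
      N * Real.exp (-(6 * L)) / 8 := by
    have g1 : 8 * (Real.exp (17 * (C1 + 2) * L ^ 2) * Real.exp ((C2 + 1) * (2 * C1 + 9) * W)) ≤
        N * Real.exp (-(6 * L)) := by
      calc 8 * (Real.exp (17 * (C1 + 2) * L ^ 2) * Real.exp ((C2 + 1) * (2 * C1 + 9) * W))
          ≤ Real.exp 3 *
            (Real.exp (17 * (C1 + 2) * L ^ 2) * Real.exp ((C2 + 1) * (2 * C1 + 9) * W)) :=
            mul_le_mul_of_nonneg_right (by linarith) (by positivity)
        _ = Real.exp (3 + (17 * (C1 + 2) * L ^ 2 + (C2 + 1) * (2 * C1 + 9) * W)) := by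
            rw [Real.exp_add, Real.exp_add]
        _ ≤ Real.exp (Real.log N + -(6 * L)) := by
            apply Real.exp_le_exp.2
            have g2 : 17 * (C1 + 2) * L ^ 2 ≤ 17 * (C1 + 2) * W :=
              mul_le_mul_of_nonneg_left hWL (by linarith)
            linarith
        _ = _ := by rw [Real.exp_add, Real.exp_log hNpos]
    linarith
  have hE : ((R : ℝ) + 1) * (HH Z : ℝ) ^ (R + 1) * errB (Ps r) (R + 2) m N ≤
      N * Real.exp (-(6 * L)) / 4 := by
    have g1 : errB (Ps r) (R + 2) m N ≤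
        2 * N * Real.exp (-(C2 * L ^ 2)) + Real.exp ((C2 + 1) * (2 * C1 + 9) * W) := by
      rw [errB]
      push_cast
      have g2 : 2 * (N : ℝ) * ((2 * ((R : ℝ) + 2) * ∑ p ∈ Ps r, 1 / (p : ℝ)) ^ m /
          (m.factorial : ℝ)) ≤ 2 * N * Real.exp (-(C2 * L ^ 2)) :=
        mul_le_mul_of_nonneg_left hA (by positivity)
      linarith
    calc ((R : ℝ) + 1) * (HH Z : ℝ) ^ (R + 1) * errB (Ps r) (R + 2) m N
        ≤ Real.exp (17 * (C1 + 2) * L ^ 2) *
          (2 * N * Real.exp (-(C2 * L ^ 2)) + Real.exp ((C2 + 1) * (2 * C1 + 9) * W)) :=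
          mul_le_mul hkH g1 (Pool.Agent.Helper90.Twin.errB_nonneg _ _ _ _) (Real.exp_pos _).le
      _ ≤ _ := by
          rw [mul_add]
          linarith
  have hD : 2 * (N : ℝ) * ((C0 * (HH Z * Gz Z)) ^ (R + 1) / ((R + 1).factorial : ℝ)) ≤
      N * Real.exp (-(6 * L)) / 4 := by
    have hG0 : 0 ≤ Gz Z := (Pool.Agent.Helper90.Twin.Gz_pos Z).le
    have g1 := pow_div_fac (a := C0 * (HH Z * Gz Z)) (by positivity) (k := R + 1) (by
      have g2 : C0 * (HH Z * Gz Z) ≤ C0 * (101 * L) :=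
        mul_le_mul_of_nonneg_left hHG (by linarith)
      have g3 : Real.exp 2 * (C0 * (HH Z * Gz Z)) ≤ Real.exp 2 * (C0 * (101 * L)) :=
        mul_le_mul_of_nonneg_left g2 he2.le
      have g4 : Real.exp 2 * (C0 * (101 * L)) = (101 * C0 * Real.exp 2) * L := by ring
      have g5 : (101 * C0 * Real.exp 2) * L ≤ C1 * L := mul_le_mul_of_nonneg_right hC1'' hL0.le
      push_cast
      linarith)
    have g2 : Real.exp (-((R + 1 : ℕ) : ℝ)) ≤ Real.exp (-(30 * L)) := by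
      apply Real.exp_le_exp.2
      push_cast
      linarith
    have g3 : 8 * Real.exp (-(30 * L)) ≤ Real.exp (-(6 * L)) := by
      calc 8 * Real.exp (-(30 * L)) ≤ Real.exp 3 * Real.exp (-(30 * L)) :=
            mul_le_mul_of_nonneg_right (by linarith) (Real.exp_pos _).le
        _ = Real.exp (3 + -(30 * L)) := by rw [Real.exp_add]
        _ ≤ _ := by
            apply Real.exp_le_exp.2
            linarith
    calc 2 * (N : ℝ) * ((C0 * (HH Z * Gz Z)) ^ (R + 1) / ((R + 1).factorial : ℝ))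
        ≤ 2 * N * Real.exp (-(30 * L)) :=
          mul_le_mul_of_nonneg_left (g1.trans g2) (by positivity)
      _ = (N / 4) * (8 * Real.exp (-(30 * L))) := by ring
      _ ≤ (N / 4) * Real.exp (-(6 * L)) := mul_le_mul_of_nonneg_left g3 (by positivity)
      _ = _ := by ring
  have hNe : 0 < (N : ℝ) * Real.exp (-(6 * L)) := by positivity
  refine ⟨R, m, ?_, ?_, ?_⟩
  · have g1 : 2 * ((R : ℝ) + 1) ≤ HH Z := by
      have : 2 * (C1 + 2) * L ≤ HH Z := hM
      linarith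
    have g2 : 2 * (R + 1) ≤ HH Z := by exact_mod_cast g1
    omega
  · linarith
  · have g1 : errB (Ps r) 1 m N ≤ errB (Ps r) (R + 2) m N :=
      Pool.Agent.Helper90.Twin.errB_mono_card (Finset.Subset.refl _) (by omega) m N
    have g2 : 3 * errB (Ps r) (R + 2) m N ≤
        ((R : ℝ) + 1) * (HH Z : ℝ) ^ (R + 1) * errB (Ps r) (R + 2) m N := by
      apply mul_le_mul_of_nonneg_right _ (Pool.Agent.Helper90.Twin.errB_nonneg _ _ _ _)
      have g3 : (1 : ℝ) ≤ (HH Z : ℝ) ^ (R + 1) := one_le_pow₀ hH1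
      nlinarith
    have g4 : 1 ≤ N * Real.exp (-(6 * L)) / 2 := by
      have g5 : 2 ≤ N * Real.exp (-(6 * L)) := by
        calc (2 : ℝ) ≤ Real.exp 3 := by linarith
          _ ≤ Real.exp (Real.log N + -(6 * L)) := by
              apply Real.exp_le_exp.2
              have g6 : 0 ≤ (17 * (C1 + 2) + (C2 + 1) * (2 * C1 + 9)) * W := by positivity
              linarith
          _ = _ := by rw [Real.exp_add, Real.exp_log hNpos]
      linarith
    linarith

end Pool.Agent.Helper54.TB
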